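import Pool.Agent.H7.UC.IfaceA
import Pool.Agent.H13.Q1.FourH
import Pool.Agent.H91.M7.ExtDisc

/-!
Module A5 of the uniform Cardy formula, part 1: continuity of Cardy's function, the cells, and the
distance in the disc of two boundary points of one cell.
-/

set_option autoImplicit false

open Metric Set Filter Topology MeasureTheory Pool.Agent.H7.UC

namespace Pool.Agent.H10.UC

open Pool.Agent.H13.Q1.Four in
theorem bet_half (a : ℝ) : IntervalIntegrable bet volume a (1 / 2) := by
  have key : ∀ a : ℝ, a ≤ 1 / 2 → IntervalIntegrable bet volume a (1 / 2) := by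
    intro a ha
    have h1 : IntervalIntegrable (fun x : ℝ => x ^ (-2 / 3 : ℝ)) volume a (1 / 2) :=
      intervalIntegral.intervalIntegrable_rpow' (by norm_num)
    have h2 : ContinuousOn (fun x : ℝ => (1 - x) ^ (-2 / 3 : ℝ)) (uIcc a (1 / 2)) := by
      rw [uIcc_of_le ha]
      apply ContinuousOn.rpow_const
      · fun_prop
      · intro x hx
        left
        have := hx.2
        linarith
    exact h1.mul_continuousOn h2
  rcases le_total a (1 / 2) with h | h
  · exact key a h
  · have h1 := key (1 - a) (by linarith)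
    have h2 := (h1.comp_sub_left 1)
    simp only [bet_symm, sub_sub_cancel] at h2
    norm_num at h2
    norm_num
    exact h2

open Pool.Agent.H13.Q1.Four in
theorem cardy_continuous : Continuous cardy := by
  unfold cardy
  apply Continuous.div_const
  exact intervalIntegral.continuous_primitive
    (fun a b => (bet_half a).trans (bet_half b).symm) 0

/-! ### cells -/

/-- the open hexagon -/
def ocell (f : Fc) : Set ℂ :=
  {z | ∀ k : Fin 3, |((z - ctr f) * (starRingEnd ℂ) (om ^ (k : ℕ))).re| < 1 / 2}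

theorem om_eq : om = ⟨1 / 2, √3 / 2⟩ := by
  unfold om
  rw [mul_comm, mul_div_assoc]
  rw [show Complex.I * ((Real.pi : ℂ) / 3) = ((Real.pi / 3 : ℝ) : ℂ) * Complex.I by
    push_cast; ring]
  rw [Complex.exp_mul_I, ← Complex.ofReal_cos, ← Complex.ofReal_sin, Real.cos_pi_div_three,
    Real.sin_pi_div_three]
  apply Complex.ext <;> simp

theorem sq3 : √3 * √3 = (3 : ℝ) := Real.mul_self_sqrt (by norm_num)

theorem om_sq : om ^ 2 = ⟨-1 / 2, √3 / 2⟩ := by
  rw [om_eq, pow_two]
  apply Complex.ext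
  · simp only [Complex.mul_re]
    nlinarith [sq3]
  · simp only [Complex.mul_im]
    ring

/-- the three linear forms -/
noncomputable def lam (k : Fin 3) (z : ℂ) : ℝ := (z * (starRingEnd ℂ) (om ^ (k : ℕ))).re

theorem lam0 (z : ℂ) : lam 0 z = z.re := by simp [lam]

theorem lam1 (z : ℂ) : lam 1 z = z.re / 2 + z.im * (√3 / 2) := by
  simp [lam, om_eq, Complex.mul_re]
  ring

theorem lam2 (z : ℂ) : lam 2 z = -z.re / 2 + z.im * (√3 / 2) := by
  simp only [lam]
  rw [show ((2 : Fin 3) : ℕ) = 2 from rfl, om_sq]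
  simp [Complex.mul_re]
  ring

theorem lam_add (k : Fin 3) (z w : ℂ) : lam k (z + w) = lam k z + lam k w := by
  simp [lam, add_mul]

theorem lam_smul (k : Fin 3) (t : ℝ) (z : ℂ) : lam k ((t : ℂ) * z) = t * lam k z := by
  unfold lam
  rw [mul_assoc, Complex.re_ofReal_mul]

theorem continuous_lam (k : Fin 3) : Continuous (lam k) := by
  unfold lam
  fun_prop

theorem mem_cell {f : Fc} {z : ℂ} : z ∈ cell f ↔ ∀ k, |lam k (z - ctr f)| ≤ 1 / 2 := Iff.rfl

theorem mem_ocell {f : Fc} {z : ℂ} : z ∈ ocell f ↔ ∀ k, |lam k (z - ctr f)| < 1 / 2 := Iff.rfl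

theorem isOpen_ocell (f : Fc) : IsOpen (ocell f) := by
  have : ocell f = ⋂ k : Fin 3, {z | |lam k (z - ctr f)| < 1 / 2} := by
    ext z
    simp [mem_ocell]
  rw [this]
  apply isOpen_iInter_of_finite
  intro k
  exact isOpen_lt ((continuous_lam k).comp (continuous_id.sub continuous_const)).abs
    continuous_const

theorem ocell_sub (f : Fc) : ocell f ⊆ cell f := fun _ hz k => (hz k).le

theorem convex_ocell (f : Fc) : Convex ℝ (ocell f) := by
  intro x hx y hy a b ha hb hab
  rw [mem_ocell] at hx hy ⊢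
  intro k
  have e : a • x + b • y - ctr f = (a : ℂ) * (x - ctr f) + (b : ℂ) * (y - ctr f) := by
    rw [Complex.real_smul, Complex.real_smul]
    have : ((a : ℂ) + b) = 1 := by exact_mod_cast hab
    linear_combination (ctr f) * this
  rw [e, lam_add, lam_smul, lam_smul]
  have h1 := abs_lt.1 (hx k)
  have h2 := abs_lt.1 (hy k)
  rw [abs_lt]
  rcases eq_or_lt_of_le ha with h | h
  · have : b = 1 := by linarith
    subst h
    rw [this]
    constructor <;> linarith [h2.1, h2.2]
  · have h3 := mul_lt_mul_of_pos_left h1.1 h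
    have h4 := mul_lt_mul_of_pos_left h1.2 h
    have h5 := mul_le_mul_of_nonneg_left h2.1.le hb
    have h6 := mul_le_mul_of_nonneg_left h2.2.le hb
    constructor <;> nlinarith

theorem cell_sub_closure (f : Fc) : cell f ⊆ closure (ocell f) := by
  intro z hz
  have hcont : Continuous (fun t : ℝ => ctr f + (t : ℂ) * (z - ctr f)) := by fun_prop
  have h1 : Tendsto (fun t : ℝ => ctr f + (t : ℂ) * (z - ctr f)) (𝓝[<] 1) (𝓝 z) := by
    have := hcont.tendsto 1
    simp only [Complex.ofReal_one, one_mul, add_sub_cancel] at this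
    exact this.mono_left nhdsWithin_le_nhds
  apply mem_closure_of_tendsto h1
  have h2 : ∀ᶠ t : ℝ in 𝓝[<] 1, t ∈ Ioo (0 : ℝ) 1 :=
    Ioo_mem_nhdsLT zero_lt_one
  filter_upwards [h2] with t ht
  rw [mem_ocell]
  intro k
  rw [add_sub_cancel_left, lam_smul, abs_mul, abs_of_pos ht.1]
  have := hz k
  change |lam k (z - ctr f)| ≤ 1 / 2 at this
  nlinarith [ht.2, ht.1, abs_nonneg (lam k (z - ctr f))]

theorem cell_dist {f : Fc} {z : ℂ} (hz : z ∈ cell f) : dist z (ctr f) ≤ 1 := by
  have h0 := hz 0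
  have h1 := hz 1
  have h2 := hz 2
  change |lam 0 (z - ctr f)| ≤ 1 / 2 at h0
  change |lam 1 (z - ctr f)| ≤ 1 / 2 at h1
  change |lam 2 (z - ctr f)| ≤ 1 / 2 at h2
  rw [lam0] at h0
  rw [lam1] at h1
  rw [lam2] at h2
  rw [dist_eq_norm]
  set w := z - ctr f
  rw [abs_le] at h0 h1 h2
  have h3 : |w.im * √3| ≤ 1 := by
    rw [abs_le]
    constructor <;> linarith
  have h4 : (w.im * √3) ^ 2 ≤ 1 := by
    rw [← sq_abs]
    exact pow_le_one₀ (abs_nonneg _) h3
  have h5 : w.im ^ 2 * 3 ≤ 1 := by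
    have : (w.im * √3) ^ 2 = w.im ^ 2 * (√3 * √3) := by ring
    rw [this, sq3] at h4
    exact h4
  have h6 : w.re ^ 2 ≤ 1 / 4 := by nlinarith
  have h7 : ‖w‖ ^ 2 ≤ 1 := by
    rw [← Complex.normSq_eq_norm_sq, Complex.normSq_apply]
    nlinarith
  nlinarith [norm_nonneg w]

theorem ocell_sub_reg {U : Finset Fc} {f : Fc} (hf : f ∈ U) : ocell f ⊆ reg U := by
  unfold reg
  rw [(isOpen_ocell f).subset_interior_iff]
  exact (ocell_sub f).trans (subset_biUnion_of_mem (u := fun f => cell f) hf)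

theorem pv_mem_cell (v : Vx) (k : Fin 3) : pv v ∈ cell (fc v k) := by
  rw [mem_cell]
  have h3 := sq3
  obtain ⟨i, j, b⟩ := v
  intro l
  fin_cases k <;> fin_cases l <;> cases b <;>
    simp only [Fin.zero_eta, Fin.mk_one, Fin.reduceFinMk, lam0, lam1, lam2, pv, ctr, fc, om_eq] <;>
    rw [abs_le] <;> constructor <;> simp <;> ring_nf <;> (try nlinarith)

theorem mid_mem_cell (v : Vx) (k : Fin 3) :
    mid v k ∈ cell (fc v (k + 1)) ∧ mid v k ∈ cell (fc v (k + 2)) := by
  rw [mem_cell, mem_cell]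
  have h3 := sq3
  obtain ⟨i, j, b⟩ := v
  constructor <;> intro l <;>
  fin_cases k <;> fin_cases l <;> cases b <;>
    simp only [Fin.zero_eta, Fin.mk_one, Fin.reduceFinMk, lam0, lam1, lam2, mid, ctr, fc, om_eq,
      Fin.reduceAdd, Fin.isValue] <;>
    rw [abs_le] <;> constructor <;> simp <;> ring_nf <;> (try nlinarith)

end Pool.Agent.H10.UC
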