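import Pool.Agent.H10.UC.A5b

/-!
Module A5 of the uniform Cardy formula: `UC` from `A34`, `D4b` and `D1c`.
-/

set_option autoImplicit false

open Metric Set Filter Topology MeasureTheory Pool.Agent.H7.UC Pool.Agent.H75.Perc

namespace Pool.Agent.H10.UC

theorem crossR_sub {a b x y d : ℂ} (hba : b - a ≠ 0) (hx : d - x ≠ 0) (hy : d - y ≠ 0) :
    crossR a x b d - crossR a y b d =
      (d - b) * ((x - y) * (d - a)) / ((b - a) * ((d - x) * (d - y))) := by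
  unfold crossR
  field_simp
  ring

theorem norm_sub_le_two {a b : ℂ} (ha : ‖a‖ ≤ 1) (hb : ‖b‖ ≤ 1) : ‖a - b‖ ≤ 2 := by
  have := norm_sub_le a b
  linarith

theorem crossR_bound {a b x d : ℂ} {κ : ℝ} (hκ : 0 < κ) (ha : ‖a‖ ≤ 1) (hb : ‖b‖ ≤ 1)
    (hx1 : ‖x‖ ≤ 1) (hd : ‖d‖ ≤ 1) (hba : κ ≤ ‖b - a‖) (hx : κ / 2 ≤ ‖d - x‖) :
    ‖crossR a x b d‖ ≤ 8 / κ ^ 2 := by
  unfold crossR
  rw [norm_div, norm_mul, norm_mul]
  have h1 := norm_sub_le_two hx1 ha
  have h2 := norm_sub_le_two hd hb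
  have h3 : ‖x - a‖ * ‖d - b‖ ≤ 2 * 2 := mul_le_mul h1 h2 (norm_nonneg _) (by norm_num)
  have h4 : κ * (κ / 2) ≤ ‖b - a‖ * ‖d - x‖ := mul_le_mul hba hx (by positivity) (norm_nonneg _)
  calc ‖x - a‖ * ‖d - b‖ / (‖b - a‖ * ‖d - x‖) ≤ (2 * 2) / (κ * (κ / 2)) :=
        div_le_div₀ (by norm_num) h3 (by positivity) h4
    _ = 8 / κ ^ 2 := by field_simp; norm_num

theorem crossR_lip {a b x y d : ℂ} {κ : ℝ} (hκ : 0 < κ) (ha : ‖a‖ ≤ 1) (hb : ‖b‖ ≤ 1)
    (hd : ‖d‖ ≤ 1) (hba : κ ≤ ‖b - a‖) (hx : κ / 2 ≤ ‖d - x‖) (hy : κ ≤ ‖d - y‖) :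
    ‖crossR a x b d - crossR a y b d‖ ≤ 8 / κ ^ 3 * ‖x - y‖ := by
  have hba0 : b - a ≠ 0 := norm_pos_iff.1 (hκ.trans_le hba)
  have hx0 : d - x ≠ 0 := norm_pos_iff.1 ((half_pos hκ).trans_le hx)
  have hy0 : d - y ≠ 0 := norm_pos_iff.1 (hκ.trans_le hy)
  rw [crossR_sub hba0 hx0 hy0, norm_div, norm_mul, norm_mul, norm_mul, norm_mul]
  have h1 := norm_sub_le_two hd ha
  have h2 := norm_sub_le_two hd hb
  have h3 : ‖d - b‖ * (‖x - y‖ * ‖d - a‖) ≤ 2 * (‖x - y‖ * 2) := by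
    apply mul_le_mul h2 _ (by positivity) (by norm_num)
    exact mul_le_mul_of_nonneg_left h1 (norm_nonneg _)
  have h4 : κ * (κ / 2 * κ) ≤ ‖b - a‖ * (‖d - x‖ * ‖d - y‖) := by
    apply mul_le_mul hba _ (by positivity) (norm_nonneg _)
    exact mul_le_mul hx hy hκ.le (norm_nonneg _)
  calc ‖d - b‖ * (‖x - y‖ * ‖d - a‖) / (‖b - a‖ * (‖d - x‖ * ‖d - y‖))
      ≤ (2 * (‖x - y‖ * 2)) / (κ * (κ / 2 * κ)) :=
        div_le_div₀ (by positivity) h3 (by positivity) h4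
    _ = 8 / κ ^ 3 * ‖x - y‖ := by field_simp; ring

/-- **Module A5.** The uniform Cardy formula. -/
theorem A5 (hA34 : A34) (hD4b : D4b) (hD1c : D1c) : UC := by
  intro ε hε κ hκ
  obtain ⟨K1, hK1⟩ := hA34 (ε / 2) (half_pos hε) (κ / 2) (half_pos hκ)
  -- uniform continuity of Cardy's function
  have huc := isCompact_Icc (a := -(8 / κ ^ 2)) (b := 8 / κ ^ 2)
    |>.uniformContinuousOn_of_continuous (f := Pool.Agent.H13.Q1.Four.cardy)
      cardy_continuous.continuousOn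
  rw [Metric.uniformContinuousOn_iff] at huc
  obtain ⟨δ, hδ, hδ2⟩ := huc (ε / 2) (half_pos hε)
  set m : ℝ := min (κ / 2) (δ / 2 * κ ^ 3 / 8) with hm
  have hm0 : 0 < m := lt_min (half_pos hκ) (by positivity)
  set K : ℝ := max K1 (2 * Real.exp ((32 * Real.pi / m) ^ 2)) with hK
  refine ⟨K, ?_⟩
  intro U M z R φ p hS hKR
  have hR1 : K1 ≤ R := (le_max_left _ _).trans hKR
  have hR2 : 2 * Real.exp ((32 * Real.pi / m) ^ 2) ≤ R := (le_max_right _ _).trans hKR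
  have hexp : 1 < Real.exp ((32 * Real.pi / m) ^ 2) := by
    apply Real.one_lt_exp_iff.2
    have := Real.pi_pos
    positivity
  have hR : 2 < R := by linarith
  have hlogm : 32 * Real.pi / √(Real.log (R / 2)) ≤ m := by
    have h1 : (32 * Real.pi / m) ^ 2 ≤ Real.log (R / 2) := by
      rw [Real.le_log_iff_exp_le (by linarith)]
      linarith
    have h2 : 32 * Real.pi / m ≤ √(Real.log (R / 2)) := by
      apply Real.le_sqrt_of_sq_le h1
    have h3 : 0 < 32 * Real.pi / m := by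
      have := Real.pi_pos
      positivity
    rw [div_le_iff₀ (h3.trans_le h2)]
    rw [div_le_iff₀ hm0] at h2
    linarith
  obtain ⟨k0, hk1, hk2, hk3, hk4⟩ := M.out 1
  set v := M.u 1 with hv
  set k := k0 + 1 with hk
  have hkk : k + 2 = k0 := by
    rw [hk]; fin_cases k0 <;> rfl
  have hmid := (mid_mem_cell v k).2
  rw [hkk] at hmid
  -- the boundary edge
  have hB : isB U (ed v k) := (M.mem _).2 ⟨1, hk4⟩
  have hinV : inV U v := ⟨k0, hk1⟩
  -- the point of the disc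
  have hmcl : mid v k ∈ closure (reg U) :=
    closure_mono (ocell_sub_reg hk1) (cell_sub_closure _ hmid)
  rw [← hS.chart.imgc] at hmcl
  obtain ⟨q, hq, hqm⟩ := hmcl
  have hq1 : ‖q‖ ≤ 1 := by simpa using hq
  have hp1 := hS.mark 1
  have hclose : dist (p 1) q ≤ m := by
    refine (near hS.chart hR hS.inner hS.zero (convex_ocell (fc v k0)).isPreconnected
      (ocell_sub_reg hk1) hp1.1 hq1 ?_ ?_ ?_).trans hlogm
    · intro w hw
      rw [hp1.2, mem_closedBall]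
      have h1 := cell_dist (ocell_sub _ hw)
      have h2 := cell_dist (pv_mem_cell v k0)
      have h3 := dist_triangle_right w (pv v) (ctr (fc v k0))
      rw [← hv]
      linarith
    · rw [hp1.2, ← hv]
      exact cell_sub_closure _ (pv_mem_cell v k0)
    · rw [hqm]
      exact cell_sub_closure _ hmid
  have hqp : ‖q - p 1‖ ≤ m := by rwa [← dist_eq_norm, dist_comm]
  have hmκ : m ≤ κ / 2 := min_le_left _ _
  have hmδ : m ≤ δ / 2 * κ ^ 3 / 8 := min_le_right _ _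
  have hsep : ∀ j, j ≠ 1 → κ / 2 ≤ ‖q - p j‖ := by
    intro j hj
    have h1 := hS.sep 1 j hj.symm
    have h2 := norm_sub_le_norm_sub_add_norm_sub (p 1) q (p j)
    rw [norm_sub_rev (p 1) q] at h2
    linarith
  -- the three marks
  set M3 := three M with hM3
  have hS3 : Sit 3 U M3 z R (κ / 2) φ ![p 0, p 2, p 3] := by
    refine ⟨hS.dom, hS.inner, hS.chart, hS.zero, ?_, ?_⟩
    · intro j
      rw [hM3, three_u]
      fin_cases j
      · exact hS.mark 0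
      · exact hS.mark 2
      · exact hS.mark 3
    · intro j l hjl
      have d := fun (a b : Fin 4) (h : a ≠ b) =>
        (le_trans (by linarith : κ / 2 ≤ κ) (hS.sep a b h))
      fin_cases j <;> fin_cases l <;> first
        | exact absurd rfl hjl
        | exact d _ _ (by decide)
  obtain ⟨c, hc⟩ := (hD1c U M3 hS.dom v hinV).1
  have hD := hD4b U M M3 hS.dom rfl rfl rfl c hc k hB
  have hedge : ed v k ∈ M3.C 0 := Finset.mem_union_right _ hk4
  have hA := hK1 U M3 z R φ ![p 0, p 2, p 3] hS3 hR1 v k q hedge hq1 hqm (by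
    intro j
    fin_cases j
    · exact hsep 0 (by decide)
    · exact hsep 2 (by decide)
    · exact hsep 3 (by decide)) c hc
  rw [hD] at hA
  change |Pr U (Cross U (M.C 0) (M.C 2)) -
    Pool.Agent.H13.Q1.Four.cardy (crossR (p 0) q (p 2) (p 3)).re| ≤ ε / 2 at hA
  -- comparison of the cross ratios
  have n0 := (hS.mark 0).1.le
  have n1 := (hS.mark 1).1.le
  have n2 := (hS.mark 2).1.le
  have n3 := (hS.mark 3).1.le
  have s20 := hS.sep 2 0 (by decide)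
  have s31 := hS.sep 3 1 (by decide)
  have s3q : κ / 2 ≤ ‖p 3 - q‖ := by rw [norm_sub_rev]; exact hsep 3 (by decide)
  have b1 := crossR_bound hκ n0 n2 hq1 n3 s20 s3q
  have b2 := crossR_bound hκ n0 n2 n1 n3 s20 (by linarith : κ / 2 ≤ ‖p 3 - p 1‖)
  have b3 := crossR_lip hκ n0 n2 n3 s20 s3q s31 (x := q) (y := p 1)
  have m1 : (crossR (p 0) q (p 2) (p 3)).re ∈ Icc (-(8 / κ ^ 2)) (8 / κ ^ 2) :=
    abs_le.1 ((Complex.abs_re_le_norm _).trans b1)
  have m2 : (crossR (p 0) (p 1) (p 2) (p 3)).re ∈ Icc (-(8 / κ ^ 2)) (8 / κ ^ 2) :=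
    abs_le.1 ((Complex.abs_re_le_norm _).trans b2)
  have m3 : dist (crossR (p 0) q (p 2) (p 3)).re (crossR (p 0) (p 1) (p 2) (p 3)).re < δ := by
    rw [Real.dist_eq, ← Complex.sub_re]
    have h1 := (Complex.abs_re_le_norm _).trans b3
    have h2 : 8 / κ ^ 3 * ‖q - p 1‖ ≤ 8 / κ ^ 3 * (δ / 2 * κ ^ 3 / 8) :=
      mul_le_mul_of_nonneg_left (hqp.trans hmδ) (by positivity)
    have h3 : 8 / κ ^ 3 * (δ / 2 * κ ^ 3 / 8) = δ / 2 := by field_simp
    linarith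
  have hfin := (hδ2 _ m1 _ m2 m3).le
  rw [Real.dist_eq] at hfin
  have h4 := abs_sub_le (Pr U (Cross U (M.C 0) (M.C 2)))
    (Pool.Agent.H13.Q1.Four.cardy (crossR (p 0) q (p 2) (p 3)).re)
    (Pool.Agent.H13.Q1.Four.cardy (crossR (p 0) (p 1) (p 2) (p 3)).re)
  linarith

end Pool.Agent.H10.UC
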