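import Pool.Agent.H10.UC.A5a
import Pool.Agent.H7.UC.Exact
import Pool.Agent.H83.Lo.Inj

/-!
Module A5 of the uniform Cardy formula, part 2: closeness in the disc, the three marks made of four.
-/

set_option autoImplicit false

open Metric Set Filter Topology MeasureTheory Pool.Agent.H7.UC

namespace Pool.Agent.H10.UC

/-- Two points of the closed disc whose images lie in the closure of a connected set `P` of small
diameter are close. -/
theorem near {D : Set ℂ} {φ : ℂ → ℂ} (hφ : DiscChart D φ) {z : ℂ} {R : ℝ} (hR : 2 < R)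
    (hin : ball z R ⊆ D) (h0 : φ 0 = z) {P : Set ℂ} (hP : IsPreconnected P) (hPD : P ⊆ D)
    {p q : ℂ} (hp : ‖p‖ = 1) (hq : ‖q‖ ≤ 1) (hPb : P ⊆ closedBall (φ p) 2)
    (hpP : φ p ∈ closure P) (hqP : φ q ∈ closure P) :
    dist p q ≤ 32 * Real.pi / √(Real.log (R / 2)) := by
  have hDo : IsOpen D := by
    rw [← hφ.img]
    exact (hφ.diff.analyticOnNhd isOpen_ball).is_constant_or_isOpen
      (convex_ball 0 1).isPreconnected |>.elim
      (by
        rintro ⟨w, hw⟩
        exfalso
        have h1 := hw 0 (by simp)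
        have h2 := hw (1 / 2) (by simp; norm_num)
        have h3 := @hφ.inj (0 : ℂ) (by simp) (1 / 2 : ℂ) (by simp; norm_num)
          (h1.trans h2.symm)
        norm_num at h3)
      (fun h => h _ Subset.rfl isOpen_ball)
  set g := Function.invFunOn φ (ball 0 1) with hg
  have hinj : InjOn φ (ball 0 1) := hφ.inj.mono ball_subset_closedBall
  have hgφ : ∀ w ∈ ball (0 : ℂ) 1, g (φ w) = w := fun w hw => hinj.leftInvOn_invFunOn hw
  have hgD : ∀ x ∈ D, g x ∈ ball (0 : ℂ) 1 := by
    intro x hx
    rw [← hφ.img] at hx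
    exact Function.invFunOn_mem hx
  have hφg : ∀ x ∈ D, φ (g x) = x := by
    intro x hx
    rw [← hφ.img] at hx
    exact Function.invFunOn_eq hx
  have hgd : DifferentiableOn ℂ g D := by
    rw [← hφ.img]
    exact Pool.Agent.H83.Lo.differentiableOn_inv isOpen_ball hφ.diff hinj hgφ
  have hgi : InjOn g D := fun x hx y hy hxy => by rw [← hφg x hx, ← hφg y hy, hxy]
  have hgim : g '' D = ball 0 1 := by
    ext w
    constructor
    · rintro ⟨x, hx, rfl⟩
      exact hgD x hx
    · intro hw
      exact ⟨φ w, by rw [← hφ.img]; exact ⟨w, hw, rfl⟩, hgφ w hw⟩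
  have hzD : z ∈ D := hin (mem_ball_self (by linarith))
  have hgz : g z = 0 := by rw [← h0]; exact hgφ 0 (by simp)
  have hpD : φ p ∉ D := by
    intro h
    rw [← hφ.img] at h
    obtain ⟨w, hw, hw2⟩ := h
    have := hφ.inj (ball_subset_closedBall hw) (by simp [hp]) hw2
    rw [this] at hw
    simp [hp] at hw
  have hdist : R ≤ dist z (φ p) := by
    by_contra hlt
    push Not at hlt
    apply hpD
    apply hin
    rw [mem_ball, dist_comm]
    exact hlt
  have hdiam : ∀ x ∈ P, ∀ y ∈ P, dist (g x) (g y) ≤ 32 * Real.pi / √(Real.log (R / 2)) :=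
    fun x hx y hy => Pool.Agent.H91.M7.ext_disc hDo hgd hgi hgim hzD hgz (by norm_num) hR hdist
      hP hPD hPb hx hy
  -- the closure of `g '' P`
  set S : Set ℂ := closure (g '' P) with hS
  have hSc : IsCompact S := by
    apply (isCompact_closedBall (0 : ℂ) 1).of_isClosed_subset isClosed_closure
    apply closure_minimal _ isClosed_closedBall
    rintro _ ⟨x, hx, rfl⟩
    exact ball_subset_closedBall (hgD x (hPD hx))
  have hSb : S ⊆ closedBall 0 1 := by
    apply closure_minimal _ isClosed_closedBall
    rintro _ ⟨x, hx, rfl⟩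
    exact ball_subset_closedBall (hgD x (hPD hx))
  have hSφ : closure P ⊆ φ '' S := by
    apply closure_minimal
    · intro x hx
      exact ⟨g x, subset_closure ⟨x, hx, rfl⟩, hφg x (hPD hx)⟩
    · exact (hSc.image_of_continuousOn (hφ.cont.mono hSb)).isClosed
  have hmem : ∀ w : ℂ, ‖w‖ ≤ 1 → φ w ∈ closure P → w ∈ S := by
    intro w hw hwP
    obtain ⟨w', hw', hw2⟩ := hSφ hwP
    have := hφ.inj (hSb hw') (by simpa using hw) hw2
    rwa [← this]
  have hpS := hmem p hp.le hpP
  have hqS := hmem q hq hqP
  have hbS : ∀ a ∈ S, ∀ b ∈ S, dist a b ≤ 32 * Real.pi / √(Real.log (R / 2)) := by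
    have h1 : ∀ a ∈ g '' P, ∀ b ∈ g '' P, dist a b ≤ 32 * Real.pi / √(Real.log (R / 2)) := by
      rintro _ ⟨x, hx, rfl⟩ _ ⟨y, hy, rfl⟩
      exact hdiam x hx y hy
    have h2 : ∀ a ∈ g '' P, ∀ b ∈ S, dist a b ≤ 32 * Real.pi / √(Real.log (R / 2)) := by
      intro a ha b hb
      have hc : IsClosed {b : ℂ | dist a b ≤ 32 * Real.pi / √(Real.log (R / 2))} :=
        isClosed_le (by fun_prop) continuous_const
      exact closure_minimal (fun b hb => h1 a ha b hb) hc hb
    intro a ha b hb
    have hc : IsClosed {a : ℂ | dist a b ≤ 32 * Real.pi / √(Real.log (R / 2))} :=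
      isClosed_le (by fun_prop) continuous_const
    exact closure_minimal (fun a ha => h2 a ha b hb) hc ha
  exact hbS p hpS q hqS

/-! ### three marks -/

theorem dv_add (x y : Ed → ZMod 2) (v : Vx) : dv (fun e => x e + y e) v = dv x v + dv y v := by
  unfold dv
  ring

theorem ind_union {α : Type*} {s t : Set α} (h : Disjoint s t) (a : α) :
    ind (s ∪ t) a = ind s a + ind t a := by
  classical
  by_cases h1 : a ∈ s
  · have h2 : a ∉ t := fun h2 => (Set.disjoint_left.1 h) h1 h2
    rw [ind_mem (show a ∈ s ∪ t from Or.inl h1), ind_mem h1, ind_not_mem h2, add_zero]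
  · by_cases h2 : a ∈ t
    · rw [ind_mem (show a ∈ s ∪ t from Or.inr h2), ind_mem h2, ind_not_mem h1, zero_add]
    · rw [ind_not_mem (by simp [h1, h2]), ind_not_mem h1, ind_not_mem h2, add_zero]

/-- the three marks `u 0, u 2, u 3` -/
noncomputable def three {U : Finset Fc} (M : Marks U 4) : Marks U 3 := by
  classical
  exact
  { u := ![M.u 0, M.u 2, M.u 3]
    C := ![M.C 0 ∪ M.C 1, M.C 2, M.C 3]
    out := by
      intro j
      fin_cases j
      · obtain ⟨k, h1, h2, h3, h4⟩ := M.out 0
        exact ⟨k, h1, h2, h3, Finset.mem_union_left _ h4⟩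
      · exact M.out 2
      · exact M.out 3
    mem := by
      intro e
      rw [M.mem e]
      constructor
      · rintro ⟨j, hj⟩
        fin_cases j
        · exact ⟨0, Finset.mem_union_left _ hj⟩
        · exact ⟨0, Finset.mem_union_right _ hj⟩
        · exact ⟨1, hj⟩
        · exact ⟨2, hj⟩
      · rintro ⟨j, hj⟩
        fin_cases j
        · rcases Finset.mem_union.1 hj with h | h
          · exact ⟨0, h⟩
          · exact ⟨1, h⟩
        · exact ⟨2, hj⟩
        · exact ⟨3, hj⟩
    disj := by
      intro j l hjl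
      have d := fun (a b : Fin 4) (h : a ≠ b) => M.disj a b h
      fin_cases j <;> fin_cases l <;> first
        | exact absurd rfl hjl
        | exact d _ _ (by decide)
        | exact Finset.disjoint_union_left.2 ⟨d _ _ (by decide), d _ _ (by decide)⟩
        | exact Finset.disjoint_union_right.2 ⟨d _ _ (by decide), d _ _ (by decide)⟩
    dvC := by
      intro j v
      fin_cases j
      · have h1 := M.dvC 0 v
        have h2 := M.dvC 1 v
        have h3 : (fun e => ind (↑(M.C 0 ∪ M.C 1) : Set Ed) e)
            = fun e => ind (↑(M.C 0) : Set Ed) e + ind (↑(M.C 1) : Set Ed) e := by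
          funext e
          rw [Finset.coe_union]
          exact ind_union (by exact_mod_cast M.disj 0 1 (by decide)) e
        change dv (ind (↑(M.C 0 ∪ M.C 1) : Set Ed)) v = ind {M.u 0} v + ind {M.u 2} v
        have h4 : dv (ind (↑(M.C 0 ∪ M.C 1) : Set Ed)) v
            = dv (ind (↑(M.C 0) : Set Ed)) v + dv (ind (↑(M.C 1) : Set Ed)) v := by
          rw [← dv_add]
          exact congrArg (fun x => dv x v) h3
        rw [h4, h1, h2]
        change ind {M.u 0} v + ind {M.u 1} v + (ind {M.u 1} v + ind {M.u 2} v) = _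
        have := z2_add_self (ind {M.u 1} v)
        linear_combination this
      · exact M.dvC 2 v
      · exact M.dvC 3 v
    inj := by
      have hi := M.inj
      intro a b hab
      fin_cases a <;> fin_cases b <;> first
        | rfl
        | (exfalso; have := hi hab; revert this; decide) }

theorem three_u {U : Finset Fc} (M : Marks U 4) :
    (three M).u = ![M.u 0, M.u 2, M.u 3] := rfl

end Pool.Agent.H10.UC
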